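import Pool.Agent.KS6_21.EP.Twin
import Pool.Graph.R_pool_sql_team_seeded_64922ed1.Results.MP_43a9c1_co.ColumnLadder

/-!
# Sparse edge-pancyclic graphs of every large order

Adding a true twin of a vertex `v` to an edge-pancyclic graph gives an edge-pancyclic graph, with
`deg v + 1` more edges. So the minimum number `f n` of edges of an edge-pancyclic graph with `n` vertices
satisfies `f (n + 1) ≤ f n + 4` for all `n ≥ 4`, and `f n ≤ (75 n + 4233) / 38` for all `n ≥ 16`.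
-/

set_option autoImplicit false

namespace Pool.Agent.Results.MP_43a9c1_co.AllLargeOrders

open Filter

/-- `e` is an edge of a cycle of length `k` of `G` (for `k ≥ 3`): a closed walk
`f 0, f 1, …, f k = f 0` with `f 0, …, f (k - 1)` distinct, of which `e` is a step. -/
def InCycle {V : Type} (G : SimpleGraph V) (k : ℕ) (e : Sym2 V) : Prop :=
  ∃ f : ℕ → V, Set.InjOn f (Set.Iio k) ∧ f k = f 0 ∧ (∀ j < k, G.Adj (f j) (f (j + 1))) ∧
    ∃ j < k, s(f j, f (j + 1)) = e

/-- `G` has an edge, and every edge of `G` is in a cycle of length `k` for every `3 ≤ k ≤ n`, where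
`n` is the number of vertices. -/
def EdgePancyclic {V : Type} [Fintype V] (G : SimpleGraph V) : Prop :=
  G.edgeSet.Nonempty ∧ ∀ e ∈ G.edgeSet, ∀ k, 3 ≤ k → k ≤ Fintype.card V → InCycle G k e

/-- the minimum number of edges of an edge-pancyclic graph with `n` vertices -/
noncomputable def f (n : ℕ) : ℕ :=
  sInf {k | ∃ G : SimpleGraph (Fin n), EdgePancyclic G ∧ G.edgeSet.ncard = k}

/-- the statement asked about: `e(G) ≥ 2 n - o(n)` for the edge-pancyclic graphs -/
def Q1 : Prop :=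
  ∀ ε : ℝ, 0 < ε → ∃ n₀ : ℕ, ∀ (V : Type) (_ : Fintype V) (G : SimpleGraph V),
    n₀ ≤ Fintype.card V → EdgePancyclic G →
      (2 - ε) * (Fintype.card V : ℝ) ≤ (G.edgeSet.ncard : ℝ)

theorem wheel_exists {n : ℕ} (hn : 4 ≤ n) :
    ∃ G : SimpleGraph (Fin n), EdgePancyclic G ∧ G.edgeSet.ncard < 2 * n := by
  have : NeZero (n - 1) := ⟨by omega⟩
  have hcard : Fintype.card (Option (ZMod (n - 1))) = n := by
    rw [Fintype.card_option, ZMod.card]; omega
  have h1 : KS6_21.EP.EdgePancyclic (KS6_21.EP.wheel (n - 1)) :=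
    KS6_21.EP.wheel_pancyclic (by omega)
  obtain ⟨h2, h3⟩ := KS6_21.EP.transport (Fintype.equivFinOfCardEq hcard) h1
  refine ⟨_, h2, ?_⟩
  rw [h3]
  have := KS6_21.EP.wheel_edges (m := n - 1) (by omega)
  omega

theorem nonempty {n : ℕ} (hn : 4 ≤ n) :
    {k | ∃ G : SimpleGraph (Fin n), EdgePancyclic G ∧ G.edgeSet.ncard = k}.Nonempty := by
  obtain ⟨G, h, -⟩ := wheel_exists hn
  exact ⟨_, G, h, rfl⟩

theorem attained {n : ℕ} (hn : 4 ≤ n) :
    ∃ G : SimpleGraph (Fin n), EdgePancyclic G ∧ G.edgeSet.ncard = f n :=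
  Nat.sInf_mem (nonempty hn)

theorem f_le {n : ℕ} {G : SimpleGraph (Fin n)} (h : EdgePancyclic G) : f n ≤ G.edgeSet.ncard :=
  Nat.sInf_le ⟨G, h, rfl⟩

theorem step {n : ℕ} (hn : 4 ≤ n) : f (n + 1) ≤ f n + 4 := by
  obtain ⟨G, hG, hf⟩ := attained hn
  obtain ⟨W, hW, hW2⟩ := wheel_exists hn
  have hlt : G.edgeSet.ncard < 2 * n := by
    rw [hf]
    exact (f_le hW).trans_lt hW2
  obtain ⟨v, hv⟩ := KS6_21.EP.exists_small G hlt
  have h1 : KS6_21.EP.EdgePancyclic (KS6_21.EP.twin G v) :=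
    KS6_21.EP.twin_pancyclic hG (by rw [Fintype.card_fin]; omega) v
  have hcard : Fintype.card (Option (Fin n)) = n + 1 := by
    rw [Fintype.card_option, Fintype.card_fin]
  obtain ⟨h2, h3⟩ := KS6_21.EP.transport (Fintype.equivFinOfCardEq hcard) h1
  have h4 := f_le (n := n + 1) h2
  rw [h3] at h4
  have h5 := KS6_21.EP.twin_edges G v
  omega

theorem steps {n : ℕ} (hn : 4 ≤ n) (j : ℕ) : f (n + j) ≤ f n + 4 * j := by
  induction j with
  | zero => exact le_rfl
  | succ j ih =>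
    have := step (n := n + j) (by omega)
    rw [Nat.add_assoc] at this
    omega

theorem bound {n : ℕ} (hn : 16 ≤ n) : 38 * f n ≤ 75 * n + 4233 := by
  obtain ⟨h1, -⟩ := ColumnLadder.result
  obtain ⟨G, hG, hG2⟩ := h1 ((n - 16) / 38)
  have h2 : f (38 * ((n - 16) / 38) + 16) ≤ 75 * ((n - 16) / 38) + 68 := (f_le hG).trans hG2
  have h3 := steps (n := 38 * ((n - 16) / 38) + 16) (by omega) ((n - 16) % 38)
  have h4 : 38 * ((n - 16) / 38) + 16 + (n - 16) % 38 = n := by omega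
  rw [h4] at h3
  have h5 := Nat.mod_lt (n - 16) (show 0 < 38 by norm_num)
  omega

theorem below {c : ℝ} (hc : 75 / 38 < c) : ∃ n₀ : ℕ, ∀ n ≥ n₀, 16 ≤ n ∧ (f n : ℝ) < c * n := by
  obtain ⟨M, hM⟩ := exists_nat_gt (4233 / (38 * c - 75))
  have hc' : 0 < 38 * c - 75 := by linarith
  rw [div_lt_iff₀ hc'] at hM
  refine ⟨max 16 M, fun n hn => ?_⟩
  have h16 : 16 ≤ n := (le_max_left _ _).trans hn
  have hMn : (M : ℝ) ≤ n := by exact_mod_cast (le_max_right 16 M).trans hn
  have h1 : (38 : ℝ) * f n ≤ 75 * n + 4233 := by exact_mod_cast bound h16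
  have h2 : (M : ℝ) * (38 * c - 75) ≤ n * (38 * c - 75) := mul_le_mul_of_nonneg_right hMn hc'.le
  exact ⟨h16, by nlinarith⟩

/-- **Sparse edge-pancyclic graphs of every large order.** Let `f n` be the minimum number of edges of an
edge-pancyclic graph with `n` vertices.
(1) `f (n + 1) ≤ f n + 4` for all `n ≥ 4`.
(2) For every `n ≥ 16` some edge-pancyclic graph with `n` vertices has at most `(75 n + 4233) / 38` edges.
(3) For every `c > 75 / 38` and every large `n` some edge-pancyclic graph with `n` vertices has fewer than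
`c n` edges.
(4) `limsup f n / n ≤ 75 / 38`.
(5) `e(G) ≥ 2 n - o(n)` fails; more precisely, for every `n ≥ 8468` some edge-pancyclic graph with `n`
vertices has fewer than `(2 - 1 / 76) n` edges. -/
theorem result :
    (∀ n : ℕ, 4 ≤ n → f (n + 1) ≤ f n + 4) ∧
    (∀ n : ℕ, 16 ≤ n → ∃ G : SimpleGraph (Fin n), EdgePancyclic G ∧
      38 * G.edgeSet.ncard ≤ 75 * n + 4233) ∧
    (∀ c : ℝ, 75 / 38 < c → ∃ n₀ : ℕ, ∀ n ≥ n₀, ∃ G : SimpleGraph (Fin n), EdgePancyclic G ∧
      (G.edgeSet.ncard : ℝ) < c * n) ∧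
    limsup (fun n => (f n : ℝ) / n) atTop ≤ 75 / 38 ∧
    (∀ n : ℕ, 8468 ≤ n → ∃ G : SimpleGraph (Fin n), EdgePancyclic G ∧
      (G.edgeSet.ncard : ℝ) < (2 - 1 / 76) * n) ∧
    ¬ Q1 := by
  have h5 : ∀ n : ℕ, 8468 ≤ n → ∃ G : SimpleGraph (Fin n), EdgePancyclic G ∧
      (G.edgeSet.ncard : ℝ) < (2 - 1 / 76) * n := by
    intro n hn
    obtain ⟨G, hG, hf⟩ := attained (n := n) (by omega)
    refine ⟨G, hG, ?_⟩
    rw [hf]
    have h1 : (38 : ℝ) * f n ≤ 75 * n + 4233 := by exact_mod_cast bound (n := n) (by omega)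
    have h2 : (8468 : ℝ) ≤ n := by exact_mod_cast hn
    linarith
  refine ⟨fun n hn => step hn, ?_, ?_, ?_, h5, ?_⟩
  · intro n hn
    obtain ⟨G, hG, hf⟩ := attained (n := n) (by omega)
    exact ⟨G, hG, by rw [hf]; exact bound hn⟩
  · intro c hc
    obtain ⟨n₀, h⟩ := below hc
    refine ⟨n₀, fun n hn => ?_⟩
    obtain ⟨h16, hlt⟩ := h n hn
    obtain ⟨G, hG, hf⟩ := attained (n := n) (by omega)
    exact ⟨G, hG, by rw [hf]; exact hlt⟩
  · refine le_of_forall_gt_imp_ge_of_dense fun c hc => ?_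
    refine limsup_le_of_le ?_ ?_
    · refine ⟨0, fun a ha => ?_⟩
      obtain ⟨n, hn⟩ := (eventually_map.1 ha).exists
      exact le_trans (by positivity) hn
    · obtain ⟨n₀, h⟩ := below hc
      refine eventually_atTop.2 ⟨n₀, fun n hn => ?_⟩
      obtain ⟨h16, hlt⟩ := h n hn
      have hpos : (0 : ℝ) < n := by exact_mod_cast (show 0 < n by omega)
      exact (div_le_iff₀ hpos).2 hlt.le
  · intro h
    obtain ⟨n₀, h1⟩ := h (1 / 76) (by norm_num)
    obtain ⟨G, hG, hlt⟩ := h5 (max n₀ 8468) (le_max_right _ _)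
    have h4 := h1 (Fin (max n₀ 8468)) inferInstance G (by rw [Fintype.card_fin]; exact le_max_left _ _) hG
    rw [Fintype.card_fin] at h4
    exact absurd hlt (not_lt.2 h4)

end Pool.Agent.Results.MP_43a9c1_co.AllLargeOrders
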